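import Mathlib

set_option autoImplicit false

namespace Pool.Agent.H55Pat

open Finset

/-- The length of the longest common pattern of the permutations `π 0, …, π (m-1)` of `Fin n`
(the same set as in the frozen statement). -/
noncomputable def Lcp (m n : ℕ) (π : Fin m → Equiv.Perm (Fin n)) : ℕ :=
  sSup {k : ℕ | ∃ σ : Equiv.Perm (Fin k), ∀ i : Fin m, ∃ e : Fin k ↪o Fin n,
    ∀ a b : Fin k, σ a < σ b ↔ π i (e a) < π i (e b)}

/-- `CPat x y B N`: there are `N` tuples `p a` of cells, `p a j ∈ B j`, such that any two of them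
are compared in the same way in all coordinates `j`, strictly, horizontally and vertically. -/
def CPat {α β : Type} (x : α → ℕ) (y : β → ℕ) {m : ℕ} (B : Fin m → Set (α × β)) (N : ℕ) : Prop :=
  ∃ p : Fin N → Fin m → α × β,
    (∀ a j, p a j ∈ B j) ∧
    (∀ a b, a ≠ b → (∀ j, x (p a j).1 < x (p b j).1) ∨ (∀ j, x (p b j).1 < x (p a j).1)) ∧
    (∀ a b, a ≠ b → (∀ j, y (p a j).2 < y (p b j).2) ∨ (∀ j, y (p b j).2 < y (p a j).2))

/-- The largest size of a common pattern in the cell sets `B j`. -/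
noncomputable def cp {α β : Type} (x : α → ℕ) (y : β → ℕ) {m : ℕ} (B : Fin m → Set (α × β)) : ℕ :=
  sSup {N | CPat x y B N}

/-- The cells occupied under a colouring `A` (colour `0` means occupied). -/
def occ {U : Type} {m Q : ℕ} (A : Fin m → U → Fin Q) : Fin m → Set U :=
  fun j => {u | (A j u).val = 0}

/-- A rule for building chains of at most `q` vectors in `(Fin G)^m`, every step of which has at
least `μ` choices. `R a u` : the floor `u` is allowed after `a` steps. -/
def Tree (m q G : ℕ) (μ : ℝ) : Prop :=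
  ∃ R : ℕ → (Fin m → ℕ) → Prop, R 0 (fun _ => 0) ∧ (∀ a u, R a u → R (a + 1) u) ∧
    ∀ a, a < q → ∀ u, R a u →
      μ ≤ (Nat.card {ξ : Fin m → Fin G // (∀ j, u j ≤ (ξ j : ℕ)) ∧
        ∃ u', R (a + 1) u' ∧ ∀ j, (ξ j : ℕ) < u' j} : ℝ)

/-- Horizontal coordinate of a fine column. -/
def xc (T G : ℕ) (s : Fin T × Fin G) : ℕ := s.1 * G + s.2

/-- Vertical coordinate of a fine row. -/
def yc (q k G : ℕ) (s : Fin q × Fin k × Fin G) : ℕ := (s.1 * k + s.2.1) * G + s.2.2

end Pool.Agent.H55Pat
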