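import Pool.Agent.H55Pat.Defs

set_option autoImplicit false

namespace Pool.Agent.H55Pat

open Finset

/-- The colourings of one row with exactly one occupied cell in every coordinate, at `z j`. -/
def Sole {m G Q : ℕ} (hQ : 0 < Q) (z : Fin m → Fin G × Fin G) :
    Finset (Fin m → Fin G × Fin G → Fin Q) :=
  Fintype.piFinset (fun j => Fintype.piFinset (fun c =>
    if c = z j then {(⟨0, hQ⟩ : Fin Q)} else univ.erase ⟨0, hQ⟩))

theorem card_sole {m G Q : ℕ} (hQ : 0 < Q) (z : Fin m → Fin G × Fin G) :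
    (Sole hQ z).card = ((Q - 1) ^ (G * G - 1)) ^ m := by
  have hrow : ∀ j : Fin m, (Fintype.piFinset (fun c : Fin G × Fin G =>
      if c = z j then {(⟨0, hQ⟩ : Fin Q)} else univ.erase ⟨0, hQ⟩)).card
        = (Q - 1) ^ (G * G - 1) := by
    intro j
    rw [Fintype.card_piFinset]
    have h1 : ∀ c : Fin G × Fin G,
        (if c = z j then {(⟨0, hQ⟩ : Fin Q)} else univ.erase ⟨0, hQ⟩ : Finset (Fin Q)).card
          = if c = z j then 1 else (Q - 1) := by
      intro c
      split_ifs
      · simp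
      · rw [card_erase_of_mem (mem_univ _)]; simp
    simp_rw [h1]
    rw [Finset.prod_ite]
    simp only [Finset.prod_const_one, one_mul, Finset.prod_const]
    congr 1
    have : (univ.filter (fun c : Fin G × Fin G => ¬ c = z j)) = univ.erase (z j) := by
      ext c; simp
    rw [this, card_erase_of_mem (mem_univ _)]
    simp
  unfold Sole
  rw [Fintype.card_piFinset]
  simp_rw [hrow]
  simp

theorem row_live {m G Q : ℕ} (hQ : 0 < Q) (D : Finset (Fin m → Fin G × Fin G))
    (hGQ : (G : ℝ) ^ 2 ≤ Q) :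
    ((D.card : ℝ) * ((1 / (Q : ℝ)) * (1 - (G : ℝ) ^ 2 / Q)) ^ m) *
        (Fintype.card (Fin m → Fin G × Fin G → Fin Q) : ℝ)
      ≤ ((univ.filter (fun ω : Fin m → Fin G × Fin G → Fin Q =>
          ∃ z ∈ D, ∀ j, (ω j (z j)).val = 0)).card : ℝ) := by
  have hQr : (0 : ℝ) < Q := by exact_mod_cast hQ
  -- disjoint union
  have hsub : D.biUnion (fun z => Sole (Q := Q) hQ z) ⊆
      univ.filter (fun ω : Fin m → Fin G × Fin G → Fin Q =>
          ∃ z ∈ D, ∀ j, (ω j (z j)).val = 0) := by
    intro ω hω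
    rw [mem_biUnion] at hω
    obtain ⟨z, hz, hω⟩ := hω
    rw [mem_filter]
    refine ⟨mem_univ _, z, hz, ?_⟩
    intro j
    unfold Sole at hω
    rw [Fintype.mem_piFinset] at hω
    have h1 := hω j
    rw [Fintype.mem_piFinset] at h1
    have h2 := h1 (z j)
    simp only [if_true, mem_singleton] at h2
    rw [h2]
  have hdisj : ∀ z ∈ D, ∀ z' ∈ D, z ≠ z' →
      Disjoint (Sole (Q := Q) hQ z) (Sole (Q := Q) hQ z') := by
    intro z _ z' _ hne
    rw [Finset.disjoint_left]
    intro ω h1 h2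
    apply hne
    funext j
    by_contra hj
    unfold Sole at h1 h2
    rw [Fintype.mem_piFinset] at h1 h2
    have a1 := h1 j
    have a2 := h2 j
    rw [Fintype.mem_piFinset] at a1 a2
    have b1 := a1 (z j)
    have b2 := a2 (z j)
    rw [if_neg hj] at b2
    simp only [if_true, mem_singleton] at b1
    rw [b1] at b2
    simp at b2
  have hcard : D.card * ((Q - 1) ^ (G * G - 1)) ^ m ≤
      (univ.filter (fun ω : Fin m → Fin G × Fin G → Fin Q =>
          ∃ z ∈ D, ∀ j, (ω j (z j)).val = 0)).card := by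
    calc D.card * ((Q - 1) ^ (G * G - 1)) ^ m
        = (D.biUnion (fun z => Sole (Q := Q) hQ z)).card := by
          rw [card_biUnion hdisj]
          simp_rw [card_sole]
          simp
      _ ≤ _ := card_le_card hsub
  have hcard' : (D.card : ℝ) * (((Q : ℝ) - 1) ^ (G * G - 1)) ^ m ≤
      ((univ.filter (fun ω : Fin m → Fin G × Fin G → Fin Q =>
          ∃ z ∈ D, ∀ j, (ω j (z j)).val = 0)).card : ℝ) := by
    have h := hcard
    have h' : ((D.card * ((Q - 1) ^ (G * G - 1)) ^ m : ℕ) : ℝ) ≤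
      ((univ.filter (fun ω : Fin m → Fin G × Fin G → Fin Q =>
          ∃ z ∈ D, ∀ j, (ω j (z j)).val = 0)).card : ℝ) := by exact_mod_cast h
    push_cast [Nat.cast_sub (Nat.succ_le_of_lt hQ)] at h'
    simpa using h'
  refine le_trans ?_ hcard'
  rcases D.eq_empty_or_nonempty with hE | ⟨z0, hz0⟩
  · simp [hE]
  rcases Nat.eq_zero_or_pos m with hm | hm
  · subst hm
    simp
  · have hG : 0 < G := by
      have := (z0 ⟨0, hm⟩).1
      exact Fin.pos this
    have hcardΩ : (Fintype.card (Fin m → Fin G × Fin G → Fin Q) : ℝ) =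
        ((Q : ℝ) ^ (G * G)) ^ m := by
      simp
    rw [hcardΩ, mul_assoc, ← mul_pow]
    apply mul_le_mul_of_nonneg_left _ (Nat.cast_nonneg _)
    apply pow_le_pow_left₀
    · have : (G : ℝ) ^ 2 / Q ≤ 1 := by
        rw [div_le_one hQr]; exact hGQ
      have h2 : 0 ≤ 1 - (G : ℝ) ^ 2 / Q := by linarith
      positivity
    · obtain ⟨n, hn⟩ : ∃ n, G * G = n + 1 := ⟨G * G - 1, by
        have : 0 < G * G := Nat.mul_pos hG hG
        omega⟩
      have hn' : (G : ℝ) ^ 2 = n + 1 := by
        have : ((G * G : ℕ) : ℝ) = ((n + 1 : ℕ) : ℝ) := by rw [hn]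
        push_cast at this
        rw [sq]; exact this
      rw [hn, hn']
      simp only [Nat.add_sub_cancel]
      have hb := one_add_mul_le_pow (a := -(1 / (Q : ℝ))) (by
        have : 1 / (Q : ℝ) ≤ 1 := by
          rw [div_le_one hQr]
          exact_mod_cast hQ
        linarith) n
      have h3 : ((Q : ℝ) - 1) ^ n = (1 + -(1 / (Q : ℝ))) ^ n * (Q : ℝ) ^ n := by
        rw [← mul_pow]
        congr 1
        field_simp
        ring
      rw [h3]
      have h4 : 1 / (Q : ℝ) * (1 - ((n : ℝ) + 1) / Q) * (Q : ℝ) ^ (n + 1) =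
          (1 - ((n : ℝ) + 1) / Q) * (Q : ℝ) ^ n := by
        rw [pow_succ]
        field_simp
      rw [h4]
      apply mul_le_mul_of_nonneg_right _ (by positivity)
      refine le_trans ?_ hb
      have : ((n : ℝ) + 1) / Q = n * (1 / Q) + 1 / Q := by ring
      rw [this]
      have : 0 ≤ 1 / (Q : ℝ) := by positivity
      linarith

/-- Row S3a (one step of the greedy algorithm succeeds with high probability). -/
theorem S3a {m k G Q k0 : ℕ} (hQ : 0 < Q) (Av : Finset (Fin k)) (hAv : k0 ≤ Av.card)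
    (D : Fin k → Finset (Fin m → Fin G × Fin G)) {θ : ℝ} (h0 : 0 ≤ θ) (h1 : θ ≤ 1)
    (hD : ∀ r ∈ Av, θ ≤ ((D r).card : ℝ) * ((1 / (Q : ℝ)) * (1 - (G : ℝ) ^ 2 / Q)) ^ m)
    (hGQ : (G : ℝ) ^ 2 ≤ Q) :
    (1 - (1 - θ) ^ k0) * (Fintype.card (Fin k → Fin m → Fin G × Fin G → Fin Q) : ℝ) ≤
      (Nat.card {ω : Fin k → Fin m → Fin G × Fin G → Fin Q //
        ∃ r ∈ Av, ∃ z ∈ D r, ∀ j, (ω r j (z j)).val = 0} : ℝ) := by
  classical
  set Ω := Fin m → Fin G × Fin G → Fin Q with hΩ
  set live : Fin k → Ω → Prop := fun r ω => ∃ z ∈ D r, ∀ j, (ω j (z j)).val = 0 with hlive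
  have hcardS : (Nat.card {ω : Fin k → Ω // ∃ r ∈ Av, live r (ω r)} : ℕ) =
      (univ.filter (fun ω : Fin k → Ω => ∃ r ∈ Av, live r (ω r))).card := by
    rw [Nat.card_eq_fintype_card, Fintype.card_subtype]
  have hgoal : (Nat.card {ω : Fin k → Fin m → Fin G × Fin G → Fin Q //
        ∃ r ∈ Av, ∃ z ∈ D r, ∀ j, (ω r j (z j)).val = 0} : ℝ) =
      ((univ.filter (fun ω : Fin k → Ω => ∃ r ∈ Av, live r (ω r))).card : ℝ) := by
    exact_mod_cast hcardS
  rw [hgoal]
  -- complement
  have hcompl : (univ.filter (fun ω : Fin k → Ω => ∃ r ∈ Av, live r (ω r))).card +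
      (univ.filter (fun ω : Fin k → Ω => ¬ ∃ r ∈ Av, live r (ω r))).card =
        Fintype.card (Fin k → Ω) := by
    rw [← Finset.card_univ]
    exact Finset.card_filter_add_card_filter_not (s := univ) (p := fun ω : Fin k → Ω => ∃ r ∈ Av, live r (ω r))
  have hpi : (univ.filter (fun ω : Fin k → Ω => ¬ ∃ r ∈ Av, live r (ω r))) =
      Fintype.piFinset (fun r => if r ∈ Av then univ.filter (fun ω : Ω => ¬ live r ω) else univ) := by
    ext ω
    simp only [mem_filter, mem_univ, true_and, Fintype.mem_piFinset, not_exists, not_and]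
    constructor
    · intro h r
      by_cases hr : r ∈ Av
      · rw [if_pos hr]; simp only [mem_filter, mem_univ, true_and]; exact h r hr
      · rw [if_neg hr]; exact mem_univ _
    · intro h r hr
      have := h r
      rw [if_pos hr] at this
      simpa using this
  have hrow : ∀ r ∈ Av, ((univ.filter (fun ω : Ω => ¬ live r ω)).card : ℝ) ≤
      (1 - θ) * (Fintype.card Ω : ℝ) := by
    intro r hr
    have h2 : (univ.filter (fun ω : Ω => live r ω)).card +
        (univ.filter (fun ω : Ω => ¬ live r ω)).card = Fintype.card Ω := by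
      rw [← Finset.card_univ]
      exact Finset.card_filter_add_card_filter_not (s := univ) (p := fun ω : Ω => live r ω)
    have h3 := row_live (m := m) hQ (D r) hGQ
    have h4 : θ * (Fintype.card Ω : ℝ) ≤ ((univ.filter (fun ω : Ω => live r ω)).card : ℝ) := by
      refine le_trans ?_ (le_trans h3 (le_of_eq ?_))
      · exact mul_le_mul_of_nonneg_right (hD r hr) (Nat.cast_nonneg _)
      · norm_cast
    have h5 : ((univ.filter (fun ω : Ω => live r ω)).card : ℝ) +
        ((univ.filter (fun ω : Ω => ¬ live r ω)).card : ℝ) = (Fintype.card Ω : ℝ) := by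
      exact_mod_cast h2
    linarith
  have hprod : ((univ.filter (fun ω : Fin k → Ω => ¬ ∃ r ∈ Av, live r (ω r))).card : ℝ) ≤
      (1 - θ) ^ k0 * (Fintype.card (Fin k → Ω) : ℝ) := by
    rw [hpi, Fintype.card_piFinset]
    push_cast
    have hle : ∀ r : Fin k, (((if r ∈ Av then univ.filter (fun ω : Ω => ¬ live r ω) else univ :
        Finset Ω)).card : ℝ) ≤ (if r ∈ Av then (1 - θ) else 1) * (Fintype.card Ω : ℝ) := by
      intro r
      by_cases hr : r ∈ Av
      · rw [if_pos hr, if_pos hr]; exact hrow r hr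
      · rw [if_neg hr, if_neg hr]; simp
    refine le_trans (Finset.prod_le_prod (fun r _ => Nat.cast_nonneg _) (fun r _ => hle r)) ?_
    have hf : (univ.filter (fun r : Fin k => r ∈ Av)) = Av := by ext r; simp
    have hif : (∏ r : Fin k, (if r ∈ Av then (1 - θ) else 1)) = (1 - θ) ^ Av.card := by
      rw [← Finset.prod_filter, hf, Finset.prod_const]
    have hc : (Fintype.card (Fin k → Ω) : ℝ) = ∏ _r : Fin k, (Fintype.card Ω : ℝ) := by
      rw [Fintype.card_fun]; push_cast; simp
    rw [Finset.prod_mul_distrib, hif, ← hc]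
    exact mul_le_mul_of_nonneg_right
      (pow_le_pow_of_le_one (by linarith) (by linarith) hAv) (Nat.cast_nonneg _)
  have h6 : ((univ.filter (fun ω : Fin k → Ω => ∃ r ∈ Av, live r (ω r))).card : ℝ) +
      ((univ.filter (fun ω : Fin k → Ω => ¬ ∃ r ∈ Av, live r (ω r))).card : ℝ) =
        (Fintype.card (Fin k → Ω) : ℝ) := by
    exact_mod_cast hcompl
  have : (1 - (1 - θ) ^ k0) * (Fintype.card (Fin k → Ω) : ℝ) =
      (Fintype.card (Fin k → Ω) : ℝ) - (1 - θ) ^ k0 * (Fintype.card (Fin k → Ω) : ℝ) := by ring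
  rw [this]
  linarith

end Pool.Agent.H55Pat
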